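import Pool.Agent.H37.SF4

set_option autoImplicit false

open Pool.Agent.H37.Med

/-- A sofic subshift whose degree is not the degree of any subshift of finite type. -/
theorem Pool.Agent.Results.MP_bced1d_lc.Gap.result :
    ∃ (G : Type) (_ : Group G) (r : ℕ) (gens : Fin r → G),
      Subgroup.closure (Set.range gens) = ⊤ ∧ (REPred fun w => ev gens w = 1) ∧
      ∃ (l : ℕ) (Y : Set (G → Fin l)), Y.Nonempty ∧ Sofic Y ∧
        ∀ (k : ℕ) (X : Set (G → Fin k)), SFT X →
          ¬ (Weak (hat gens '' X) (hat gens '' Y) ∧ Weak (hat gens '' Y) (hat gens '' X)) :=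
  Pool.Agent.H37.SF.main
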